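import Mathlib
import Pool.Agent.Helper50.MB.Goals

/-!
# Packet MB-REC: the recursion
-/

set_option autoImplicit false

namespace Pool.Agent.Helper56.MB

open Pool.Agent.Helper50.MB

/-- The product of all factors is a small power of `N`. -/
theorem rec_prod (N K N1 N2 σ x : ℕ) (hN : 32 ≤ N) (hσ : σ * σ ≤ N) (hσ5 : 5 ≤ σ)
    (hK : K = 43 * (σ + 1)) (h12 : N1 + N2 ≤ N + 4 * K + 8) :
    (N + 4 * K + 9) ^ 2 * (2 * (N + 1) ^ K * ((N1 + 1) ^ (2 * K + 4) *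
      (N2 + 1) ^ (2 * K + 4)) * (4 * N ^ 2 + 1) ^ K * x) ≤ N ^ (24 * K + 44) * x := by
  have h1 : 5 * σ ≤ N := le_trans (Nat.mul_le_mul_right σ hσ5) hσ
  have hN4 : 42 * N ≤ N ^ 4 := by
    calc 42 * N ≤ 32 ^ 3 * N := Nat.mul_le_mul_right _ (by norm_num)
      _ ≤ N ^ 3 * N := Nat.mul_le_mul_right _ (Nat.pow_le_pow_left hN 3)
      _ = N ^ 4 := by ring
  have b1 : N + 4 * K + 9 ≤ N ^ 4 := by omega
  have b2 : 2 ≤ N ^ 4 := by omega
  have b3 : N + 1 ≤ N ^ 4 := by omega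
  have b4 : N1 + 1 ≤ N ^ 4 := by omega
  have b5 : N2 + 1 ≤ N ^ 4 := by omega
  have b6 : 4 * N ^ 2 + 1 ≤ N ^ 4 := by
    have h2 : 1 ≤ N ^ 2 := Nat.one_le_pow _ _ (by omega)
    calc 4 * N ^ 2 + 1 ≤ 32 ^ 2 * N ^ 2 := by omega
      _ ≤ N ^ 2 * N ^ 2 := Nat.mul_le_mul_right _ (Nat.pow_le_pow_left hN 2)
      _ = N ^ 4 := by ring
  calc (N + 4 * K + 9) ^ 2 * (2 * (N + 1) ^ K * ((N1 + 1) ^ (2 * K + 4) *
        (N2 + 1) ^ (2 * K + 4)) * (4 * N ^ 2 + 1) ^ K * x)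
      ≤ (N ^ 4) ^ 2 * ((N ^ 4) * (N ^ 4) ^ K * ((N ^ 4) ^ (2 * K + 4) *
        (N ^ 4) ^ (2 * K + 4)) * (N ^ 4) ^ K * x) := by gcongr
    _ = N ^ (24 * K + 44) * x := by
        simp only [← pow_mul, ← pow_add, ← mul_assoc]
        congr 2
        ring

/-- REC. -/
theorem goalREC (hRECA : Pool.Agent.Helper50.MB.RECA) : Pool.Agent.Helper50.MB.REC := by
  refine ⟨2000, by norm_num, ?_⟩
  intro h N hN hpos
  obtain ⟨N1, N2, K, hK, h1, h2, h3, h4, h5⟩ := hRECA h N hN hpos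
  obtain ⟨σ, hσ⟩ : ∃ σ, σ = Nat.sqrt N := ⟨_, rfl⟩
  rw [← hσ] at hK
  have hσN : σ * σ ≤ N := by
    rw [hσ]
    exact Nat.sqrt_le N
  have hσ5 : 5 ≤ σ := by
    rw [hσ]
    exact Nat.le_sqrt.2 (by omega)
  have hσr : (σ : ℝ) ≤ Real.sqrt N := by
    apply Real.le_sqrt_of_sq_le
    have : ((σ * σ : ℕ) : ℝ) ≤ (N : ℝ) := by exact_mod_cast hσN
    push_cast at this
    nlinarith
  have hσ5r : (5 : ℝ) ≤ σ := by exact_mod_cast hσ5
  have hKr : (K : ℝ) = 43 * ((σ : ℝ) + 1) := by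
    rw [hK]
    push_cast
    ring
  refine ⟨N1, N2, h1, h2, h3, ?_, ?_⟩
  · have h6 : ((N1 + N2 : ℕ) : ℝ) ≤ ((N + 4 * K + 8 : ℕ) : ℝ) := by exact_mod_cast h4
    push_cast at h6
    linarith
  · have h6 := h5.trans (rec_prod N K N1 N2 σ (cT h N1 * cT h N2) hN hσN hσ5 hK h4)
    have h7 : (cT h N : ℝ) ≤ (N : ℝ) ^ (24 * K + 44) * ((cT h N1 : ℝ) * (cT h N2 : ℝ)) := by
      exact_mod_cast h6
    refine h7.trans ?_
    apply mul_le_mul_of_nonneg_right _ (by positivity)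
    have hN0 : (0 : ℝ) < N := by
      have : 0 < N := by omega
      exact_mod_cast this
    have hlog : 0 ≤ Real.log N := by
      apply Real.log_nonneg
      have : 1 ≤ N := by omega
      exact_mod_cast this
    calc (N : ℝ) ^ (24 * K + 44) = Real.exp (((24 * K + 44 : ℕ) : ℝ) * Real.log N) := by
          rw [Real.exp_nat_mul, Real.exp_log hN0]
      _ ≤ Real.exp (2000 * Real.sqrt N * Real.log N) := by
          apply Real.exp_le_exp.2
          apply mul_le_mul_of_nonneg_right _ hlog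
          push_cast
          linarith

end Pool.Agent.Helper56.MB
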