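import Mathlib
import Pool.Agent.Helper50.MB.Goals

/-!
# Packet MB-RECA: the recursion, with explicit numbers
-/

set_option autoImplicit false

namespace Pool.Agent.Helper56.MB

open Pool.Agent.Helper50.MB

/-- The complement has the same number of cut pieces. -/
theorem red_compl (N : ℕ) (A : Finset ℕ) : red N (Finset.range N \ A) = red N A := by
  unfold red
  congr 1
  ext i
  simp only [Set.mem_setOf_eq, Finset.mem_sdiff, Finset.mem_range]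
  constructor
  · rintro ⟨h1, h2⟩
    refine ⟨h1, fun h3 => h2 ?_⟩
    constructor
    · rintro ⟨_, h5⟩
      exact ⟨h1, fun h6 => h5 (h3.2 h6)⟩
    · rintro ⟨_, h5⟩
      exact ⟨by omega, fun h6 => h5 (h3.1 h6)⟩
  · rintro ⟨h1, h2⟩
    refine ⟨h1, fun h3 => h2 ?_⟩
    constructor
    · intro h4
      by_contra h5
      exact (h3.2 ⟨h1, h5⟩).2 h4
    · intro h4
      by_contra h5
      exact (h3.1 ⟨by omega, h5⟩).2 h4

/-- RECA. -/
theorem goalRECA (hCUT : Pool.Agent.Helper50.MB.CUT) (hCOMP : Pool.Agent.Helper50.MB.COMP)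
    (hCOD : Pool.Agent.Helper50.MB.COD) (hFIN : Pool.Agent.Helper50.MB.FIN) :
    Pool.Agent.Helper50.MB.RECA := by
  classical
  intro h N hN hpos
  obtain ⟨K, hK⟩ : ∃ K, K = 43 * (Nat.sqrt N + 1) := ⟨_, rfl⟩
  obtain ⟨M, hM⟩ : ∃ M, M = N + 4 * K + 9 := ⟨_, rfl⟩
  obtain ⟨S, hS⟩ : ∃ S : ℕ × ℕ → Set (ℤ → ℤ), S = fun p => {a : ℤ → ℤ | SZ N a ∧
    (h = true → HF a) ∧ ∃ (A : Finset ℕ) (b1 b2 : ℤ → ℤ) (io1 io2 : ℕ → ℕ),
    A ⊆ Finset.range N ∧ Cpl a A p.1 b1 io1 ∧ Cpl a (Finset.range N \ A) p.2 b2 io2 ∧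
    (h = true → HF b1 ∧ HF b2) ∧ red N A ≤ K ∧ (cuts a A).ncard ≤ K ∧
    p.1 ≤ A.card + 2 * K + 4 ∧ p.2 ≤ (Finset.range N \ A).card + 2 * K + 4} := ⟨_, rfl⟩
  obtain ⟨X, hX⟩ : ∃ X : ℕ × ℕ → ℕ, X = fun p => 2 * (N + 1) ^ K * ((p.1 + 1) ^ (2 * K + 4) *
    (p.2 + 1) ^ (2 * K + 4)) * (4 * N ^ 2 + 1) ^ K * (cT h p.1 * cT h p.2) := ⟨_, rfl⟩
  have hSX : ∀ p, (S p).ncard ≤ X p := by
    intro p
    rw [hS, hX]
    exact hCOD h N p.1 p.2 K
  obtain ⟨P, hP⟩ : ∃ P : Finset (ℕ × ℕ), P = (Finset.range M ×ˢ Finset.range M).filter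
    (fun p => N ≤ 16 * p.1 ∧ N ≤ 16 * p.2 ∧ N ≤ p.1 + p.2 ∧ p.1 + p.2 ≤ N + 4 * K + 8) :=
    ⟨_, rfl⟩
  have hPcard : P.card ≤ M ^ 2 := by
    rw [hP]
    calc _ ≤ (Finset.range M ×ˢ Finset.range M).card := Finset.card_filter_le _ _
      _ = M ^ 2 := by rw [Finset.card_product, Finset.card_range, sq]
  obtain ⟨A0, hA0⟩ : ∃ A0 : Set (ℤ → ℤ), A0 = {a | SZ N a ∧ (h = true → HF a)} := ⟨_, rfl⟩
  have hcard : cT h N = A0.ncard := by
    rw [hA0]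
    rfl
  have hfin : A0.Finite := by
    rw [hA0]
    exact (hFIN h N).1
  have hcov : ∀ a ∈ A0, ∃ p ∈ P, a ∈ S p := by
    intro a ha
    rw [hA0] at ha
    obtain ⟨ha1, ha2⟩ := ha
    obtain ⟨A, hAs, hA1, hA2, hA3⟩ := hCUT N a hN ha1.nci
    rw [← hK] at hA3
    obtain ⟨N1, b1, io1, c1, c2, c3, c4⟩ := hCOMP h N a A ha1 ha2 hAs
    obtain ⟨N2, b2, io2, d1, d2, d3, d4⟩ := hCOMP h N a (Finset.range N \ A) ha1 ha2
      Finset.sdiff_subset
    rw [red_compl] at d4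
    have hAB : A.card + (Finset.range N \ A).card = N := by
      have h1 := Finset.card_sdiff_add_card_eq_card hAs
      rw [Finset.card_range] at h1
      omega
    refine ⟨(N1, N2), ?_, ?_⟩
    · rw [hP]
      simp only [Finset.mem_filter, Finset.mem_product, Finset.mem_range]
      refine ⟨⟨?_, ?_⟩, ?_, ?_, ?_, ?_⟩ <;> omega
    · rw [hS]
      refine ⟨ha1, ha2, A, b1, b2, io1, io2, hAs, c1, d1, fun hh => ⟨c2 hh, d2 hh⟩, ?_, ?_, ?_, ?_⟩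
      · omega
      · omega
      · show N1 ≤ A.card + 2 * K + 4
        omega
      · show N2 ≤ (Finset.range N \ A).card + 2 * K + 4
        omega
  have hne : A0.Nonempty := by
    rw [hcard] at hpos
    exact (Set.ncard_pos hfin).1 hpos
  obtain ⟨a0, ha0⟩ := hne
  obtain ⟨p0, hp0, _⟩ := hcov a0 ha0
  obtain ⟨p, hp, hmax⟩ := Finset.exists_max_image P X ⟨p0, hp0⟩
  have hSfin : ∀ q, (S q).Finite := by
    intro q
    apply hfin.subset
    intro a ha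
    rw [hS] at ha
    rw [hA0]
    exact ⟨ha.1, ha.2.1⟩
  have hbound : A0.ncard ≤ M ^ 2 * X p := by
    have h1 : A0 ⊆ ⋃ q ∈ P, S q := by
      intro a ha
      obtain ⟨q, hq, haq⟩ := hcov a ha
      exact Set.mem_biUnion hq haq
    have h2 : (⋃ q ∈ P, S q).Finite := Set.Finite.biUnion P.finite_toSet (fun q _ => hSfin q)
    calc A0.ncard ≤ (⋃ q ∈ P, S q).ncard := Set.ncard_le_ncard h1 h2
      _ ≤ ∑ q ∈ P, (S q).ncard := Finset.set_ncard_biUnion_le P S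
      _ ≤ ∑ q ∈ P, X p := Finset.sum_le_sum (fun q hq => (hSX q).trans (hmax q hq))
      _ = P.card * X p := by rw [Finset.sum_const, smul_eq_mul]
      _ ≤ M ^ 2 * X p := Nat.mul_le_mul_right _ hPcard
  rw [hP] at hp
  simp only [Finset.mem_filter, Finset.mem_product, Finset.mem_range] at hp
  refine ⟨p.1, p.2, K, hK, hp.2.1, hp.2.2.1, hp.2.2.2.1, hp.2.2.2.2, ?_⟩
  rw [hcard, ← hM]
  rw [hX] at hbound
  exact hbound

end Pool.Agent.Helper56.MB
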