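import Pool.Agent.Helper59.MB.Goals1

/-!
# Project MB, packet LOP: locality of good words and of the maps `Phi`.
-/

set_option autoImplicit false

open MeasureTheory Filter Topology Finset

namespace Pool.Agent.Helper56.MB

open Pool.Agent.Helper59.MB

lemma P_pos (s : ℕ → ℕ) (k : ℕ) : 0 < P s k := pow_pos (by norm_num) _

lemma P_dvd (s : ℕ → ℕ) (hs : StrictMono s) {l k : ℕ} (h : l ≤ k) : P s l ∣ P s k :=
  pow_dvd_pow 2 (hs.monotone h)

/-- the block of level `l` of a place `i < P k` is contained in `[0, P k)` -/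
lemma blk_lt (s : ℕ → ℕ) (hs : StrictMono s) {l k i a : ℕ} (h : l ≤ k) (hi : i < P s k)
    (ha : a / P s l = i / P s l) : a < P s k := by
  obtain ⟨c, hc⟩ := P_dvd s hs h
  have hp := P_pos s l
  rw [hc] at hi ⊢
  rw [mul_comm] at hi ⊢
  rw [← Nat.div_lt_iff_lt_mul hp] at hi ⊢
  omega

lemma blk_mul_lt (s : ℕ → ℕ) (hs : StrictMono s) {l k i a : ℕ} (h : l ≤ k) (hi : i < P s k)
    (ha : a < P s l) : P s l * (i / P s l) + a < P s k := by
  refine blk_lt s hs h hi ?_
  rw [Nat.mul_add_div (P_pos s l), Nat.div_eq_of_lt ha, add_zero]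

theorem t_LOP (hLOC : S_LOC) : S_LOP := by
  intro s V m _ hs
  have hA : ∀ (k : ℕ) (η : ℝ) (e : ℕ → ℕ → ℝ) (w w' : Wd),
      (∀ a < P s (k + 1), ∀ j < k, w a j = w' a j) →
      (GoodW s V k η e w ↔ GoodW s V k η e w') := by
    intro k η e w w' h
    have key : ∀ l ≤ k, ∀ i < P s (k + 1), ev s l w i = ev s l w' i := by
      intro l hl i hi
      refine (hLOC s hs).1 l i w w' fun a ha j hj => ?_
      exact h a (blk_lt s hs (by omega : l ≤ k + 1) hi ha) j (by omega)
    unfold GoodW
    refine forall_congr' fun l => forall_congr' fun hl => forall_congr' fun i₁ =>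
      forall_congr' fun i₂ => forall_congr' fun h12 => forall_congr' fun h2 =>
      forall_congr' fun v => forall_congr' fun hv => ?_
    rw [Finset.sum_congr rfl fun i hi => by
      rw [key l hl i (lt_of_lt_of_le (Finset.mem_Ico.1 hi).2 h2)]]
  have hcat : ∀ (k : ℕ), (∀ w w' : Wd, (∀ a < P s k, w a = w' a) →
      ∀ i < P s k, Phi s V m k w i = Phi s V m k w' i) →
      ∀ w w' : Wd, (∀ a < P s (k + 1), w a = w' a) → ∀ i < P s (k + 1),
        cat s k (Phi s V m k) w i = cat s k (Phi s V m k) w' i := by
    intro k ih w w' h i hi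
    unfold cat
    refine ih _ _ (fun a ha => ?_) _ (Nat.mod_lt _ (P_pos s k))
    unfold from'
    exact h _ (blk_mul_lt s hs (Nat.le_succ k) hi ha)
  refine ⟨hA, ?_, ?_⟩
  · intro k
    induction k with
    | zero => intro w w' h i hi; exact h i hi
    | succ k ih =>
      intro w w' h i hi
      have hc := hcat k ih w w' h
      have hG := hA k (1 / (k + 1)) (mean s m (Phi s V m k)) (cat s k (Phi s V m k) w)
        (cat s k (Phi s V m k) w') fun a ha j _ => congrFun (hc a ha) j
      show nxt s V m k (Phi s V m k) w i = nxt s V m k (Phi s V m k) w' i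
      unfold nxt
      by_cases hg : GoodW s V k (1 / (k + 1)) (mean s m (Phi s V m k)) (cat s k (Phi s V m k) w)
      · rw [if_pos hg, if_pos (hG.1 hg)]
        exact hc i hi
      · rw [if_neg hg, if_neg fun h' => hg (hG.2 h')]
        funext j
        rw [hc i hi]
  · intro k
    induction k with
    | zero => intro w i j _; rfl
    | succ k ih =>
      intro w i j hj
      have hc : cat s k (Phi s V m k) w i j = w i j := by
        unfold cat
        rw [ih _ _ _ (by omega)]
        unfold from'
        rw [Nat.div_add_mod]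
      show nxt s V m k (Phi s V m k) w i j = w i j
      unfold nxt
      split_ifs with hg
      · exact hc
      · show (if j < k + 1 then _ else _) = _
        rw [if_neg (by omega)]
        exact hc

end Pool.Agent.Helper56.MB
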