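import Pool.Agent.Helper70.MB.Goals

/-!
# The fractional moment

Goal `MOMC` of project MB.
-/

namespace Pool.Agent.Helper56.MB

open MeasureTheory Set Metric
open Pool.Agent.Helper70.MB
open Pool.Agent.Results.MP_91ee6f_gt

/-- `(-1)^m (e^{-x} - ∑_{j<m} (-x)^j/j!)` -/
noncomputable def Q : ℕ → ℝ → ℝ
  | 0, x => Real.exp (-x)
  | m + 1, x => x ^ m / (m.factorial : ℝ) - Q m x

lemma Q_succ (m : ℕ) (x : ℝ) : Q (m + 1) x = x ^ m / (m.factorial : ℝ) - Q m x := rfl

lemma Q_at_zero (m : ℕ) : Q (m + 1) 0 = 0 := by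
  induction m with
  | zero => simp [Q]
  | succ m ih => rw [Q_succ, ih]; simp

lemma Q_deriv (m : ℕ) (x : ℝ) : HasDerivAt (Q (m + 1)) (Q m x) x := by
  induction m with
  | zero =>
    have h1 : HasDerivAt (fun y : ℝ => Real.exp (-y)) (Real.exp (-x) * (-1)) x :=
      ((hasDerivAt_id x).neg).exp
    have h2 : HasDerivAt (fun y : ℝ => 1 - Real.exp (-y)) (- (Real.exp (-x) * (-1))) x :=
      h1.const_sub 1
    have h3 : Q (0 + 1) = fun y : ℝ => 1 - Real.exp (-y) := by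
      ext y
      simp [Q]
    rw [h3]
    convert h2 using 1
    simp [Q]
  | succ m ih =>
    have h1 : HasDerivAt (fun y : ℝ => y ^ (m + 1) / ((m + 1).factorial : ℝ))
        (((m + 1 : ℕ) : ℝ) * x ^ m / ((m + 1).factorial : ℝ)) x := by
      have := (hasDerivAt_pow (m + 1) x).div_const ((m + 1).factorial : ℝ)
      simpa using this
    have h2 := h1.sub ih
    have h3 : Q (m + 1 + 1) = fun y => y ^ (m + 1) / ((m + 1).factorial : ℝ) - Q (m + 1) y := by
      ext y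
      rfl
    rw [h3, Q_succ]
    have h4 : ((m + 1 : ℕ) : ℝ) * x ^ m / ((m + 1).factorial : ℝ) = x ^ m / (m.factorial : ℝ) := by
      have : (m.factorial : ℝ) ≠ 0 := by positivity
      rw [Nat.factorial_succ]
      push_cast
      field_simp
    rw [h4] at h2
    exact h2

lemma Q_cont (m : ℕ) : Continuous (Q m) := by
  cases m with
  | zero =>
    have : Q 0 = fun y : ℝ => Real.exp (-y) := by ext y; rfl
    rw [this]
    fun_prop
  | succ m => exact continuous_iff_continuousAt.2 fun x => (Q_deriv m x).continuousAt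

lemma Q_pos (m : ℕ) : ∀ x : ℝ, 0 < x → 0 < Q m x := by
  induction m with
  | zero => intro x _; exact Real.exp_pos _
  | succ m ih =>
    intro x hx
    have h : StrictMonoOn (Q (m + 1)) (Ici 0) := by
      refine strictMonoOn_of_deriv_pos (convex_Ici 0) (Q_cont _).continuousOn fun y hy => ?_
      rw [interior_Ici] at hy
      rw [(Q_deriv m y).deriv]
      exact ih y hy
    have := h (mem_Ici.2 le_rfl) (mem_Ici.2 hx.le) hx
    rwa [Q_at_zero] at this

lemma Q_le (m : ℕ) (x : ℝ) (hx : 0 < x) : Q m x ≤ x ^ m := by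
  have h1 := Q_pos (m + 1) x hx
  rw [Q_succ] at h1
  have h2 : x ^ m / (m.factorial : ℝ) ≤ x ^ m :=
    div_le_self (by positivity) (by exact_mod_cast Nat.one_le_iff_ne_zero.2 (Nat.factorial_ne_zero m))
  linarith

lemma Q_succ_le (m : ℕ) (x : ℝ) (hx : 0 < x) : Q (m + 1) x ≤ x ^ m := by
  have h1 := Q_pos m x hx
  rw [Q_succ]
  have h2 : x ^ m / (m.factorial : ℝ) ≤ x ^ m :=
    div_le_self (by positivity) (by exact_mod_cast Nat.one_le_iff_ne_zero.2 (Nat.factorial_ne_zero m))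
  linarith

/-- the integrand -/
noncomputable def g (k : ℕ) (u : ℝ) : ℝ := u ^ (-((k : ℝ) + 1 / 2) - 1) * Q (k + 1) u

lemma g_pos (k : ℕ) (u : ℝ) (hu : 0 < u) : 0 < g k u :=
  mul_pos (Real.rpow_pos_of_pos hu _) (Q_pos _ _ hu)

lemma g_meas (k : ℕ) : Measurable (g k) := by
  unfold g
  exact (measurable_id.pow_const _).mul (Q_cont _).measurable

lemma g_int (k : ℕ) : IntegrableOn (g k) (Ioi 0) := by
  have hu : Ioc (0 : ℝ) 1 ∪ Ioi 1 = Ioi 0 := Ioc_union_Ioi_eq_Ioi zero_le_one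
  rw [← hu]
  refine IntegrableOn.union ?_ ?_
  · have h1 : IntegrableOn (fun u : ℝ => u ^ (-(1 / 2) : ℝ)) (Ioc 0 1) := by
      have := intervalIntegral.intervalIntegrable_rpow' (a := 0) (b := 1)
        (r := (-(1 / 2) : ℝ)) (by norm_num)
      rwa [intervalIntegrable_iff_integrableOn_Ioc_of_le zero_le_one] at this
    refine h1.mono' (g_meas k).aestronglyMeasurable ?_
    refine (ae_restrict_iff' measurableSet_Ioc).2 (Filter.Eventually.of_forall fun u hu => ?_)
    rw [Real.norm_eq_abs, abs_of_pos (g_pos k u hu.1)]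
    unfold g
    calc u ^ (-((k : ℝ) + 1 / 2) - 1) * Q (k + 1) u
        ≤ u ^ (-((k : ℝ) + 1 / 2) - 1) * u ^ (k + 1) :=
          mul_le_mul_of_nonneg_left (Q_le _ _ hu.1) (Real.rpow_nonneg hu.1.le _)
      _ = u ^ (-(1 / 2) : ℝ) := by
          rw [← Real.rpow_natCast, ← Real.rpow_add hu.1]
          congr 1
          push_cast
          ring
  · have h1 : IntegrableOn (fun u : ℝ => u ^ (-(3 / 2) : ℝ)) (Ioi 1) :=
      integrableOn_Ioi_rpow_of_lt (by norm_num) one_pos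
    refine h1.mono' (g_meas k).aestronglyMeasurable ?_
    refine (ae_restrict_iff' measurableSet_Ioi).2 (Filter.Eventually.of_forall fun u hu => ?_)
    have hu0 : 0 < u := lt_trans one_pos hu
    rw [Real.norm_eq_abs, abs_of_pos (g_pos k u hu0)]
    unfold g
    calc u ^ (-((k : ℝ) + 1 / 2) - 1) * Q (k + 1) u
        ≤ u ^ (-((k : ℝ) + 1 / 2) - 1) * u ^ k :=
          mul_le_mul_of_nonneg_left (Q_succ_le _ _ hu0) (Real.rpow_nonneg hu0.le _)
      _ = u ^ (-(3 / 2) : ℝ) := by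
          rw [← Real.rpow_natCast, ← Real.rpow_add hu0]
          congr 1
          ring

/-- the constant -/
noncomputable def c0 (k : ℕ) : ℝ := ∫ u in Ioi (0 : ℝ), g k u

lemma c0_pos (k : ℕ) : 0 < c0 k := by
  unfold c0
  rw [setIntegral_pos_iff_support_of_nonneg_ae]
  · have h : Function.support (g k) ∩ Ioi 0 = Ioi 0 := by
      refine inter_eq_right.2 fun u hu => ?_
      exact (g_pos k u hu).ne'
    rw [h]
    simp
  · exact (ae_restrict_iff' measurableSet_Ioi).2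
      (Filter.Eventually.of_forall fun u hu => (g_pos k u hu).le)
  · exact g_int k

lemma g_scale (k : ℕ) (a t : ℝ) (ha : 0 < a) (ht : 0 < t) :
    t ^ (-((k : ℝ) + 1 / 2) - 1) * Q (k + 1) (t * a) =
      a ^ ((k : ℝ) + 1 / 2 + 1) * g k (a * t) := by
  unfold g
  rw [Real.mul_rpow ha.le ht.le, mul_comm a t, ← mul_assoc, ← mul_assoc, ← Real.rpow_add ha]
  have : (k : ℝ) + 1 / 2 + 1 + (-((k : ℝ) + 1 / 2) - 1) = 0 := by ring
  rw [this, Real.rpow_zero, one_mul]

lemma scale_int (k : ℕ) (a : ℝ) (ha : 0 < a) :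
    IntegrableOn (fun t : ℝ => t ^ (-((k : ℝ) + 1 / 2) - 1) * Q (k + 1) (t * a)) (Ioi 0) := by
  have h1 : IntegrableOn (fun t : ℝ => g k (a * t)) (Ioi 0) := by
    have := (integrableOn_Ioi_comp_mul_left_iff (g k) 0 ha).2 (by simpa using g_int k)
    exact this
  refine (h1.const_mul (a ^ ((k : ℝ) + 1 / 2 + 1))).congr ?_
  refine (ae_restrict_iff' measurableSet_Ioi).2 (Filter.Eventually.of_forall fun t ht => ?_)
  exact (g_scale k a t ha ht).symm

lemma scale_eq (k : ℕ) (a : ℝ) (ha : 0 < a) :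
    ∫ t in Ioi (0 : ℝ), t ^ (-((k : ℝ) + 1 / 2) - 1) * Q (k + 1) (t * a) =
      a ^ ((k : ℝ) + 1 / 2) * c0 k := by
  rw [setIntegral_congr_fun measurableSet_Ioi (fun t ht => g_scale k a t ha ht),
    integral_const_mul, integral_comp_mul_left_Ioi (g k) 0 ha, mul_zero, smul_eq_mul, ← mul_assoc]
  unfold c0
  congr 1
  rw [Real.rpow_add ha, Real.rpow_one]
  field_simp

lemma int_of_le {n : ℕ} (s : ℝ) (f : En n → ℝ) (hf : Measurable f)
    (hi : Integrable (fun ξ : En n => br ξ ^ s * f ξ)) (w : En n → ℝ) (hw : Continuous w) (C : ℝ)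
    (hC : ∀ ξ, |w ξ| ≤ C * br ξ ^ s) : Integrable (fun ξ : En n => w ξ * f ξ) := by
  refine (hi.norm.const_mul C).mono' (hw.measurable.mul hf).aestronglyMeasurable
    (Filter.Eventually.of_forall fun ξ => ?_)
  rw [Real.norm_eq_abs, Real.norm_eq_abs, abs_mul, abs_mul, abs_of_pos (br_rpow_pos ξ s),
    ← mul_assoc]
  exact mul_le_mul_of_nonneg_right (hC ξ) (abs_nonneg _)

lemma moment {n : ℕ} (s : ℝ) (hs : 0 ≤ s) (f : En n → ℝ) (hf : Measurable f)
    (hi : Integrable (fun ξ : En n => br ξ ^ s * f ξ))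
    (hm : ∀ j : ℕ, (j : ℝ) ≤ s → ∫ ξ : En n, br ξ ^ j * f ξ = 0) (t : ℝ) (ht : 0 < t) (m : ℕ)
    (hms : (m : ℝ) ≤ s + 1) :
    Integrable (fun ξ : En n => Q m (t * br ξ) * f ξ) ∧
      ∫ ξ : En n, Q m (t * br ξ) * f ξ = (-1) ^ m * ∫ ξ : En n, Real.exp (-(t * br ξ)) * f ξ := by
  induction m with
  | zero =>
    refine ⟨?_, ?_⟩
    · refine int_of_le s f hf hi _ ?_ 1 fun ξ => ?_
      · exact (Q_cont 0).comp (continuous_const.mul continuous_br)
      · have h1 : (1 : ℝ) ≤ br ξ ^ s := Real.one_le_rpow (one_le_br ξ) hs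
        have h2 : Q 0 (t * br ξ) ≤ 1 := by
          show Real.exp (-(t * br ξ)) ≤ 1
          rw [Real.exp_le_one_iff]
          have := mul_pos ht (br_pos ξ)
          linarith
        rw [abs_of_pos (Q_pos 0 _ (mul_pos ht (br_pos ξ)))]
        linarith
    · rw [pow_zero, one_mul]
      rfl
  | succ m ih =>
    have hms' : (m : ℝ) ≤ s := by
      push_cast at hms
      linarith
    obtain ⟨h1, h2⟩ := ih (by linarith)
    have h3 : Integrable (fun ξ : En n => br ξ ^ m * f ξ) := by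
      refine int_of_le s f hf hi _ (continuous_br.pow m) 1 fun ξ => ?_
      rw [abs_of_pos (pow_pos (br_pos ξ) m), one_mul, ← Real.rpow_natCast]
      exact br_rpow_mono ξ hms'
    have h4 : ∀ ξ : En n, Q (m + 1) (t * br ξ) * f ξ =
        t ^ m / (m.factorial : ℝ) * (br ξ ^ m * f ξ) - Q m (t * br ξ) * f ξ := by
      intro ξ
      rw [Q_succ, mul_pow]
      ring
    simp_rw [h4]
    refine ⟨(h3.const_mul _).sub h1, ?_⟩
    rw [integral_sub (h3.const_mul _) h1, integral_const_mul, hm m hms', h2, pow_succ]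
    ring

theorem momc : MOMC := by
  intro n hn hev
  obtain ⟨k, hk⟩ := hev
  have hsx : sx n = (k : ℝ) + 1 / 2 := by
    unfold sx
    rw [hk]
    push_cast
    ring
  refine ⟨(-1) ^ (k + 1) * c0 k, mul_ne_zero (by positivity) (c0_pos k).ne', ?_⟩
  intro f hf hi hm
  rw [hsx] at hi hm ⊢
  have hk0 : (0 : ℝ) ≤ k := Nat.cast_nonneg k
  have hs0 : (0 : ℝ) ≤ (k : ℝ) + 1 / 2 := by linarith
  have hmom : ∀ t : ℝ, 0 < t → ∫ ξ : En n, Q (k + 1) (t * br ξ) * f ξ =
      (-1) ^ (k + 1) * ∫ ξ : En n, Real.exp (-(t * br ξ)) * f ξ := fun t ht =>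
    (moment _ hs0 f hf hi hm t ht (k + 1) (by push_cast; linarith)).2
  -- the function on the product
  have hmeas : Measurable fun p : ℝ × En n =>
      p.1 ^ (-((k : ℝ) + 1 / 2) - 1) * Q (k + 1) (p.1 * br p.2) * f p.2 := by
    refine ((measurable_fst.pow_const _).mul ?_).mul (hf.comp measurable_snd)
    exact (Q_cont _).measurable.comp
      (measurable_fst.mul (continuous_br.measurable.comp measurable_snd))
  have hpt : ∀ ξ : En n, ∫ t in Ioi (0 : ℝ),
      ‖t ^ (-((k : ℝ) + 1 / 2) - 1) * Q (k + 1) (t * br ξ) * f ξ‖ =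
        c0 k * ‖br ξ ^ ((k : ℝ) + 1 / 2) * f ξ‖ := by
    intro ξ
    have h1 : ∀ t ∈ Ioi (0 : ℝ), ‖t ^ (-((k : ℝ) + 1 / 2) - 1) * Q (k + 1) (t * br ξ) * f ξ‖ =
        t ^ (-((k : ℝ) + 1 / 2) - 1) * Q (k + 1) (t * br ξ) * |f ξ| := by
      intro t ht
      rw [Real.norm_eq_abs, abs_mul, abs_of_pos]
      exact mul_pos (Real.rpow_pos_of_pos ht _) (Q_pos _ _ (mul_pos ht (br_pos ξ)))
    rw [setIntegral_congr_fun measurableSet_Ioi h1, integral_mul_const,
      scale_eq k _ (br_pos ξ), Real.norm_eq_abs, abs_mul, abs_of_pos (br_rpow_pos ξ _)]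
    ring
  have hprod : Integrable (fun p : ℝ × En n =>
      p.1 ^ (-((k : ℝ) + 1 / 2) - 1) * Q (k + 1) (p.1 * br p.2) * f p.2)
      ((volume.restrict (Ioi (0 : ℝ))).prod (volume : Measure (En n))) := by
    rw [integrable_prod_iff' hmeas.aestronglyMeasurable]
    refine ⟨Filter.Eventually.of_forall fun ξ => ?_, ?_⟩
    · exact (scale_int k _ (br_pos ξ)).mul_const (f ξ)
    · simp_rw [hpt]
      exact hi.norm.const_mul _
  have hin : ∀ t ∈ Ioi (0 : ℝ),
      (∫ ξ : En n, t ^ (-((k : ℝ) + 1 / 2) - 1) * Q (k + 1) (t * br ξ) * f ξ) =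
        (-1) ^ (k + 1) * (t ^ (-((k : ℝ) + 1 / 2) - 1) *
          ∫ ξ : En n, Real.exp (-(t * br ξ)) * f ξ) := by
    intro t ht
    simp_rw [mul_assoc]
    rw [integral_const_mul, hmom t ht]
    ring
  have hsq : ((-1 : ℝ) ^ (k + 1)) * (-1) ^ (k + 1) = 1 := by
    rw [← mul_pow]
    simp
  refine ⟨?_, ?_⟩
  · have h1 := hprod.integral_prod_left
    have h2 := h1.const_mul ((-1 : ℝ) ^ (k + 1))
    refine h2.congr ((ae_restrict_iff' measurableSet_Ioi).2
      (Filter.Eventually.of_forall fun t ht => ?_))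
    show (-1 : ℝ) ^ (k + 1) * (∫ ξ : En n,
      t ^ (-((k : ℝ) + 1 / 2) - 1) * Q (k + 1) (t * br ξ) * f ξ) = _
    rw [hin t ht, ← mul_assoc, hsq, one_mul]
  · have h1 := integral_integral_swap (f := fun (t : ℝ) (ξ : En n) =>
      t ^ (-((k : ℝ) + 1 / 2) - 1) * Q (k + 1) (t * br ξ) * f ξ) hprod
    rw [setIntegral_congr_fun measurableSet_Ioi hin, integral_const_mul] at h1
    have h2 : ∀ ξ : En n, (∫ t in Ioi (0 : ℝ),
        t ^ (-((k : ℝ) + 1 / 2) - 1) * Q (k + 1) (t * br ξ) * f ξ) =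
          c0 k * (br ξ ^ ((k : ℝ) + 1 / 2) * f ξ) := by
      intro ξ
      rw [integral_mul_const, scale_eq k _ (br_pos ξ)]
      ring
    simp_rw [h2] at h1
    rw [integral_const_mul] at h1
    rw [mul_assoc, ← h1, ← mul_assoc, hsq, one_mul]

end Pool.Agent.Helper56.MB
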