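import Pool.Agent.Helper59.MB.Goals2

/-!
# Project MB, packet NMD: the second model is not Moebius disjoint.
-/

set_option autoImplicit false

open MeasureTheory Filter Topology

namespace Pool.Agent.Helper56.MB

open Pool.Agent.Helper59.MB

lemma TB_iter (n : ℕ) (x : Bas) (k : ℤ) : ((⇑TB)^[n] x).1 k = x.1 (k + n) := by
  induction n generalizing k with
  | zero => simp
  | succ n ih =>
    rw [Function.iterate_succ_apply']
    show ((⇑TB)^[n] x).1 (k + 1) = _
    rw [ih, show k + 1 + (n : ℤ) = k + ((n + 1 : ℕ) : ℤ) by push_cast; ring]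

lemma TX_iter (s : ℕ → ℕ) (V : ℕ → Set (ℕ → ℝ)) (m : Measure A) [IsProbabilityMeasure m]
    (x : X s V m) (n : ℕ) : (((⇑(TX s V m))^[n] x : X s V m) : Bas) = (⇑TB)^[n] (x : Bas) := by
  induction n with
  | zero => rfl
  | succ n ih =>
    rw [Function.iterate_succ_apply', Function.iterate_succ_apply', ← ih]
    rfl

/-- a compact metrizable system, with a metric -/
theorem packN {Y : Type} [TopologicalSpace Y] [TopologicalSpace.MetrizableSpace Y] [CompactSpace Y]
    [MeasurableSpace Y] [BorelSpace Y] (hUNI : S_UNI) (T : Y ≃ₜ Y) (ν : Measure Y)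
    (h1 : IsProbabilityMeasure ν) (h2 : MeasurePreserving (⇑T) ν ν)
    (h3 : ∀ f : C(Y, ℝ), ∃ c : ℝ, ∀ ε > 0, ∃ N₀ : ℕ, ∀ N ≥ N₀, ∀ x : Y,
      |∑ n ∈ Finset.Icc 1 N, f ((⇑T)^[n] x) - c * N| ≤ ε * N)
    (m : Measure A) [IsProbabilityMeasure m] (h4 : Iso (⇑T) ν (⇑TB) (BM m)) (h5 : ¬ MD (⇑T)) :
    ∃ (Y : Type) (_ : MetricSpace Y) (_ : CompactSpace Y) (_ : MeasurableSpace Y) (_ : BorelSpace Y)
      (T : Y ≃ₜ Y) (ν : Measure Y), UE (⇑T) ν ∧ Iso (⇑T) ν (⇑TB) (BM m) ∧ ¬ MD (⇑T) := by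
  letI : MetricSpace Y := TopologicalSpace.metrizableSpaceMetric Y
  exact ⟨Y, inferInstance, inferInstance, inferInstance, inferInstance, T, ν,
    hUNI Y (⇑T) T.continuous h3 ν h1 h2, h4, h5⟩

lemma mdup_real (m : Measure A) (j i : ℕ) :
    (mdup m).real {a | a (Nat.pair j i) = true} = m.real {a | a j = true} := by
  unfold mdup
  have hm : MeasurableSet {a : A | a (Nat.pair j i) = true} := by
    have h0 : Measurable fun a : A => a (Nat.pair j i) := measurable_pi_apply _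
    exact h0 (measurableSet_singleton true)
  rw [map_measureReal_apply measurable_dup hm]
  congr 1
  ext a
  simp [dup]

theorem t_NMD (hREC : S_REC) (hTWO : S_TWO) (hXCL : S_XCL) (hXUE : S_XUE) (hUNI : S_UNI)
    (hISO : S_ISO) : S_NMD := by
  intro m _ hj δ hδ hNP
  obtain ⟨j, hj0, hj1⟩ := hj
  obtain ⟨p, hp⟩ : ∃ p : ℝ, p = m.real {a | a j = true} := ⟨_, rfl⟩
  rw [← hp] at hj0 hj1
  have hc : 0 < δ / 2 * (p * (1 - p)) / 4 := by
    have : 0 < 1 - p := by linarith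
    positivity
  obtain ⟨i, hi⟩ := exists_pow_lt_of_lt_one hc (by norm_num : (1 / 2 : ℝ) < 1)
  have hd : (1 / 2 : ℝ) ^ (Nat.pair j i + 1) ≤ δ / 2 * (p * (1 - p)) / 4 := by
    refine le_trans (pow_le_pow_of_le_one (by norm_num) (by norm_num) ?_) hi.le
    have := Nat.right_le_pair j i
    omega
  have hpd : p = (mdup m).real {a | a (Nat.pair j i) = true} := by rw [mdup_real, hp]
  obtain ⟨d, hdd⟩ : ∃ d : ℕ, d = Nat.pair j i := ⟨_, rfl⟩
  rw [← hdd] at hd hpd
  obtain ⟨s, hPar, y, hgood, hN⟩ := hREC (mdup m) d (fun n => ArithmeticFunction.moebius n) δ p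
    (fun n => ArithmeticFunction.abs_moebius_le_one) hδ hNP hpd hd
  have hmono : StrictMono s := (hPar 0).mono
  obtain ⟨z, hz, hzy⟩ := hTWO s V1 (mdup m) hmono y hgood
  have hcl : IsClosed (X s V1 (mdup m)) := hXCL s V1 (mdup m) hmono
  obtain ⟨ν, hν1, hν2, hν3⟩ := hISO s V1 m hPar hcl
  haveI : CompactSpace (X s V1 (mdup m)) := isCompact_iff_compactSpace.1 hcl.isCompact
  refine packN hUNI (TX s V1 (mdup m)) ν hν1 hν2 (hXUE.1 s V1 (mdup m) hPar hcl) m hν3 ?_
  intro hMD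
  have hcont : Continuous fun w : X s V1 (mdup m) =>
      (if (w : Bas).1 0 d = true then (1 : ℝ) else 0) - p := by
    have h1 : Continuous fun w : X s V1 (mdup m) => (w : Bas).1 0 d := by
      exact (continuous_apply d).comp
        ((continuous_apply (0 : ℤ)).comp (continuous_fst.comp continuous_subtype_val))
    have h2 : Continuous fun b : Bool => (if b = true then (1 : ℝ) else 0) - p :=
      continuous_of_discreteTopology
    exact h2.comp h1
  have hT := hMD ⟨_, hcont⟩ ⟨(z, 0), hz⟩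
  have hval : ∀ n : ℕ, (⟨fun w : X s V1 (mdup m) =>
      (if (w : Bas).1 0 d = true then (1 : ℝ) else 0) - p, hcont⟩ : C(X s V1 (mdup m), ℝ))
        ((⇑(TX s V1 (mdup m)))^[n] ⟨(z, 0), hz⟩) =
      (if y n d = true then (1 : ℝ) else 0) - p := by
    intro n
    show (if (((⇑(TX s V1 (mdup m)))^[n] ⟨(z, 0), hz⟩ : X s V1 (mdup m)) : Bas).1 0 d = true
      then (1 : ℝ) else 0) - p = _
    rw [TX_iter, TB_iter]
    show (if z (0 + (n : ℤ)) d = true then (1 : ℝ) else 0) - p = _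
    rw [zero_add, hzy]
  simp only [hval] at hT
  have hev := (tendsto_order.1 hT).2 _ hc
  obtain ⟨N₀, hN₀⟩ := eventually_atTop.1 hev
  obtain ⟨N, hNge, hNs⟩ := hN (max N₀ 1)
  have h1 := hN₀ N (le_trans (le_max_left _ _) hNge)
  have hNpos : (0 : ℝ) < N := by
    have : 1 ≤ N := le_trans (le_max_right _ _) hNge
    exact_mod_cast this
  have h2 : δ / 2 * (p * (1 - p)) / 4 ≤ 1 / (N : ℝ) * ∑ n ∈ Finset.Icc 1 N,
      ((if y n d = true then (1 : ℝ) else 0) - p) * ((ArithmeticFunction.moebius n : ℤ) : ℝ) := by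
    rw [one_div, ← div_eq_inv_mul, le_div_iff₀ hNpos]
    exact hNs
  exact absurd h1 (not_lt.2 h2)

end Pool.Agent.Helper56.MB
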